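import Pool.Agent.Helper61.FN.Goals

/-!
# Project FN (MP_06d934_gt), packet FN-RES (helper90)
-/

set_option autoImplicit false

namespace Pool.Agent.Helper90.FN

open WithZero Pool.Agent.Helper61.FN

/-- logarithmic derivative of an integer power -/
theorem div_zpow {F K : Type} [Field F] [Field K] [Algebra F K] (D : Derivation F K K) (y : K)
    (hy : y ≠ 0) (n : ℤ) : D (y ^ n) / y ^ n = (n : K) * (D y / y) := by
  rw [Derivation.leibniz_zpow, zsmul_eq_mul, smul_eq_mul, zpow_sub_one₀ hy]
  have h : y ^ n ≠ 0 := zpow_ne_zero _ hy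
  field_simp

theorem goalRES : G_RES := by
  intro F K _ _ _ _ t v D ht hL y a N hy hvy hvt hN
  have hw : v (y ^ N * t ^ a) = 1 := by
    rw [map_mul, map_zpow₀, map_zpow₀, hvy, hvt, ← exp_zsmul, ← exp_zsmul, ← exp_add]
    have : N • a + a • -N = 0 := by
      rw [smul_eq_mul, smul_eq_mul]; ring
    rw [this, exp_zero]
  have hyN : y ^ N ≠ 0 := zpow_ne_zero _ hy
  have hta : t ^ a ≠ 0 := zpow_ne_zero _ ht
  have hD : D (y ^ N * t ^ a) / (y ^ N * t ^ a) = (N : K) * (D y / y) + (a : K) := by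
    have h1 := div_zpow D y hy N
    have h2 := div_zpow D t ht a
    rw [hL.dt, div_self ht, mul_one] at h2
    rw [← h1, ← h2, Derivation.leibniz, smul_eq_mul, smul_eq_mul]
    field_simp
    ring
  have h3 := hL.dv (y ^ N * t ^ a) hw.le
  rw [← hD, map_div₀, hw, div_one]
  exact h3

end Pool.Agent.Helper90.FN
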